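import Pool.Agent.U41.PH.Stm

/-! Project PH, package SP: specialization of the certificate. -/

set_option autoImplicit false

namespace Pool.Agent.U41.PH

open Pool.Agent.H918R2.Quad Pool.Agent.TH214.RM Pool.Agent.U41.OD MvPolynomial

theorem sp_mem {σ O O' : Type} [CommRing O] [CommRing O'] (φ : O →+* O')
    {S : Set (MvPolynomial σ O)} {x : MvPolynomial σ O} (hx : x ∈ Ideal.span S)
    (T : Set (MvPolynomial σ O')) (h : ∀ s ∈ S, map φ s ∈ T) : map φ x ∈ Ideal.span T := by
  have h1 : map φ x ∈ Ideal.map (map φ : MvPolynomial σ O →+* MvPolynomial σ O') (Ideal.span S) :=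
    Ideal.mem_map_of_mem _ hx
  rw [Ideal.map_span] at h1
  exact Ideal.span_mono (by rintro _ ⟨s, hs, rfl⟩; exact h s hs) h1

theorem sp_hess {σ O O' : Type} [CommRing O] [CommRing O'] [Fintype σ] [DecidableEq σ]
    (φ : O →+* O') (g : MvPolynomial σ O) : map φ (hess g).det = (hess (map φ g)).det := by
  rw [RingHom.map_det]
  congr 1
  ext i j : 2
  simp only [hess, RingHom.mapMatrix_apply, Matrix.map_apply, Matrix.of_apply]
  rw [pderiv_map, pderiv_map]

theorem SP_ok : S_SP := by
  intro O O' _ _ φ n N G h
  refine ⟨fun l => ?_, ?_, fun i hi => ?_⟩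
  · obtain ⟨M, hM⟩ := h.sep l
    refine ⟨M, ?_⟩
    have h1 := sp_mem φ hM (insert (rename Sum.inl (deh 0 (map φ G)) -
        rename Sum.inr (deh 0 (map φ G)))
        ((Set.range fun j => rename Sum.inl (pderiv j (deh 0 (map φ G)))) ∪
          (Set.range fun j => rename Sum.inr (pderiv j (deh 0 (map φ G)))))) ?_
    · simpa only [map_mul, map_pow, map_sub, map_C, map_rename, map_X] using h1
    · intro s hs
      rcases hs with rfl | ⟨j, rfl⟩ | ⟨j, rfl⟩
      · left
        rw [map_sub, map_rename, map_rename, map_deh]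
      · right; left
        refine ⟨j, ?_⟩
        simp only [map_rename, ← map_deh, pderiv_map]
      · right; right
        refine ⟨j, ?_⟩
        simp only [map_rename, ← map_deh, pderiv_map]
  · have h1 := sp_mem φ h.nondeg (insert (hess (deh 0 (map φ G))).det
      (Set.range fun j => pderiv j (deh 0 (map φ G)))) ?_
    · simpa only [map_C] using h1
    · intro s hs
      rcases hs with rfl | ⟨j, rfl⟩
      · left
        rw [sp_hess, map_deh]
      · right
        refine ⟨j, ?_⟩
        simp only [← map_deh, pderiv_map]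
  · obtain ⟨M, hM⟩ := h.sect i hi
    refine ⟨M, ?_⟩
    have h1 := sp_mem φ hM (insert (X 0) (insert (map φ G)
      (Set.range fun j : {j : Fin (n + 2) // j ≠ 0} =>
      pderiv (j : Fin (n + 2)) (map φ G)))) ?_
    · simpa only [map_mul, map_pow, map_C, map_X] using h1
    · intro s hs
      rcases hs with rfl | rfl | ⟨j, rfl⟩
      · left
        rw [map_X]
      · right; left
        rfl
      · right; right
        refine ⟨j, ?_⟩
        simp only [pderiv_map]

end Pool.Agent.U41.PH

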